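import Pool.Agent.Y329.CG.Stm

/-!
Project CG: the nonamenability criterion.
-/

set_option autoImplicit false

open Set Filter Topology MeasureTheory

namespace Pool.Agent.Y286.CG

open Pool.Agent.Y329.CG

theorem countable_F2 : Countable F2 := by
  have : Function.Surjective (FreeGroup.mk : List (Fin 2 × Bool) → F2) := fun x =>
    ⟨x.toWord, FreeGroup.mk_toWord⟩
  exact this.countable

/-- comparison of the traces of two sets on a third one -/
theorem trace_le {X Y Q : Set ℝ} (hX : volume X ≠ ⊤) (hY : volume Y ≠ ⊤) :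
    volume.real (X ∩ Q) ≤ volume.real (Y ∩ Q) + volume.real (symmDiff X Y) := by
  have h1 : X ∩ Q ⊆ (Y ∩ Q) ∪ symmDiff X Y := by
    rintro x ⟨hx, hq⟩
    by_cases hy : x ∈ Y
    · exact Or.inl ⟨hy, hq⟩
    · exact Or.inr (Or.inl ⟨hx, hy⟩)
  have hfin : volume ((Y ∩ Q) ∪ symmDiff X Y) ≠ ⊤ := by
    refine ne_top_of_le_ne_top (ENNReal.add_ne_top.mpr ⟨hX, hY⟩)
      ((measure_mono ?_).trans (measure_union_le X Y))
    rintro x (⟨hy, _⟩ | hx)
    · exact Or.inr hy
    · exact (hx.elim (fun h => Or.inl h.1) (fun h => Or.inr h.1))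
  exact (measureReal_mono h1 hfin).trans (measureReal_union_le _ _)

theorem trace_abs {X Y Q : Set ℝ} (hX : volume X ≠ ⊤) (hY : volume Y ≠ ⊤) :
    |volume.real (X ∩ Q) - volume.real (Y ∩ Q)| ≤ volume.real (symmDiff X Y) := by
  have h1 := trace_le (Q := Q) hX hY
  have h2 := trace_le (Q := Q) hY hX
  rw [symmDiff_comm] at h2
  rw [abs_le]
  constructor <;> linarith

theorem done (hI : S_INT) (hA : S_FA) : S_NA := by
  intro H _ act c h hcoc hmeas hU hmh hdist hsd
  rintro ⟨m, hm0, hm1, hadd, hinv⟩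
  have := countable_F2
  -- the inverted measure
  set m' : Set H → ℝ := fun A => m (Inv.inv ⁻¹' A) with hm'
  have hm'inv : ∀ (k : H) (A : Set H), m' ((fun x => x * k) ⁻¹' A) = m' A := by
    intro k A
    have h1 : (Inv.inv ⁻¹' ((fun x => x * k) ⁻¹' A) : Set H)
        = (fun x => k⁻¹ * x) ⁻¹' (Inv.inv ⁻¹' A) := by
      ext x
      simp only [mem_preimage, mul_inv_rev, inv_inv]
    show m _ = m _
    rw [h1, hinv]
  obtain ⟨Λ, hΛadd, hΛmono, hΛconst, hΛinv⟩ := hI H m' (fun A => hm0 _) (by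
    show m _ = 1
    rw [preimage_univ]; exact hm1) (by
    intro A B hAB
    show m _ = m _ + m _
    rw [preimage_union]
    exact hadd _ _ (hAB.preimage _))
  set U : Set ℝ := Ico (1:ℝ) 2 with hUdef
  have hUm : MeasurableSet U := measurableSet_Ico
  have hUfin : volume U ≠ ⊤ := by rw [hUdef]; simp
  have hUvol : volume.real U = 1 := by
    rw [hUdef, Real.volume_real_Ico]; norm_num
  -- measurability
  have hQ : ∀ (g : H) (E : Set F2), MeasurableSet {x | c g x ∈ E} := by
    intro g E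
    have h1 : {x | c g x ∈ E} = ⋃ v ∈ E, {x | c g x = v} := by
      ext x
      simp
    rw [h1]
    exact MeasurableSet.biUnion (to_countable E) fun v _ => hmeas g v
  set F : Set F2 → H → ℝ := fun E g => volume.real (U ∩ {x | c g x ∈ E}) with hF
  have hF0 : ∀ E g, 0 ≤ F E g := fun E g => measureReal_nonneg
  have hF1 : ∀ E g, F E g ≤ 1 := by
    intro E g
    rw [← hUvol]
    exact measureReal_mono inter_subset_left hUfin
  have hFb : ∀ E, Bd (F E) := fun E => ⟨1, fun g => by
    rw [abs_of_nonneg (hF0 E g)]; exact hF1 E g⟩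
  have hcb : ∀ r : ℝ, Bd (fun _ : H => r) := fun r => ⟨|r|, fun _ => le_rfl⟩
  apply hA
  refine ⟨fun E => Λ (F E), fun E => ?_, ?_, ?_, ?_⟩
  · have := hΛmono (fun _ => 0) (F E) (hcb 0) (hFb E) (fun g => hF0 E g)
    rwa [hΛconst] at this
  · have h1 : F univ = fun _ => (1 : ℝ) := by
      funext g
      show volume.real (U ∩ {x | c g x ∈ univ}) = 1
      have : U ∩ {x | c g x ∈ (univ : Set F2)} = U := by
        ext x; simp
      rw [this, hUvol]
    show Λ (F univ) = 1
    rw [h1, hΛconst]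
  · intro A B hAB
    have h1 : F (A ∪ B) = fun g => F A g + F B g := by
      funext g
      show volume.real (U ∩ {x | c g x ∈ A ∪ B}) = _
      have h2 : U ∩ {x | c g x ∈ A ∪ B} = (U ∩ {x | c g x ∈ A}) ∪ (U ∩ {x | c g x ∈ B}) := by
        rw [← inter_union_distrib_left]
        rfl
      have hd : Disjoint (U ∩ {x | c g x ∈ A}) (U ∩ {x | c g x ∈ B}) := by
        rw [Set.disjoint_left]
        rintro x ⟨_, hx⟩ ⟨_, hx'⟩
        exact (Set.disjoint_left.mp hAB) hx hx'
      rw [h2, measureReal_union hd (hUm.inter (hQ g B))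
        (ne_top_of_le_ne_top hUfin (measure_mono inter_subset_left))
        (ne_top_of_le_ne_top hUfin (measure_mono inter_subset_left))]
    show Λ (F (A ∪ B)) = Λ (F A) + Λ (F B)
    rw [h1]
    exact hΛadd _ _ (hFb A) (hFb B)
  · intro i E
    set hh : H := h i with hhdef
    set s : F2 := FreeGroup.of i with hs
    set Es : Set F2 := {x | x * s⁻¹ ∈ E} with hEs
    -- the image of U has finite measure
    have himfin : volume (act hh '' U) ≠ ⊤ := by
      intro htop
      have h1 := hdist i U hUm le_rfl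
      rw [hUvol] at h1
      have h2 : volume.real (act hh '' U) = 0 := by
        rw [Measure.real, htop]; simp
      rw [h2] at h1
      norm_num at h1
    have key : ∀ g : H, |F Es g - F E (g * hh⁻¹)| ≤ 1 / 25 := by
      intro g
      set B : Set ℝ := U ∩ {x | c g x ∈ Es} with hB
      have hBm : MeasurableSet B := hUm.inter (hQ g Es)
      have h1 : act hh '' B = (act hh '' U) ∩ {y | c (g * hh⁻¹) y ∈ E} := by
        have hrel : ∀ x ∈ U, (c g x ∈ Es ↔ c (g * hh⁻¹) (act hh x) ∈ E) := by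
          intro x hx
          have h2 := hcoc (g * hh⁻¹) hh x
          rw [inv_mul_cancel_right, hU i x hx] at h2
          show c g x * s⁻¹ ∈ E ↔ _
          rw [h2, mul_inv_cancel_right]
        ext y
        constructor
        · rintro ⟨x, ⟨hxU, hx⟩, rfl⟩
          exact ⟨⟨x, hxU, rfl⟩, (hrel x hxU).mp hx⟩
        · rintro ⟨⟨x, hxU, rfl⟩, hx⟩
          exact ⟨x, ⟨hxU, (hrel x hxU).mpr hx⟩, rfl⟩
      have h2 := hdist i B hBm inter_subset_left
      have h3 := trace_abs (Q := {y | c (g * hh⁻¹) y ∈ E}) himfin hUfin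
      have h4 := hsd i
      rw [← hhdef] at h2 h4
      rw [h1] at h2
      have e1 : F Es g = volume.real B := rfl
      have e2 : F E (g * hh⁻¹) = volume.real (U ∩ {y | c (g * hh⁻¹) y ∈ E}) := rfl
      rw [e1, e2]
      rw [abs_le] at h2 h3 ⊢
      constructor <;> linarith [h2.1, h2.2, h3.1, h3.2]
    have hshift : Λ (fun g => F E (g * hh⁻¹)) = Λ (F E) :=
      hΛinv (fun g => g * hh⁻¹) (fun A => hm'inv hh⁻¹ A) (F E) (hFb E)
    have hsb : Bd (fun g => F E (g * hh⁻¹)) := ⟨1, fun g => by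
      rw [abs_of_nonneg (hF0 E _)]; exact hF1 E _⟩
    have hsb' : Bd (fun g => F E (g * hh⁻¹) + 1 / 25) := ⟨1 + 1 / 25, fun g => by
      have := hF0 E (g * hh⁻¹)
      rw [abs_of_nonneg (by linarith)]
      linarith [hF1 E (g * hh⁻¹)]⟩
    have hsb'' : Bd (fun g => F Es g + 1 / 25) := ⟨1 + 1 / 25, fun g => by
      have := hF0 Es g
      rw [abs_of_nonneg (by linarith)]
      linarith [hF1 Es g]⟩
    have u1 : Λ (F Es) ≤ Λ (F E) + 1 / 25 := by
      have h5 := hΛmono (F Es) (fun g => F E (g * hh⁻¹) + 1 / 25) (hFb Es) hsb' (fun g => by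
        have := (abs_le.mp (key g)).2
        linarith)
      rw [hΛadd _ _ hsb (hcb _), hΛconst, hshift] at h5
      exact h5
    have u2 : Λ (F E) ≤ Λ (F Es) + 1 / 25 := by
      have h5 := hΛmono (fun g => F E (g * hh⁻¹)) (fun g => F Es g + 1 / 25) hsb hsb'' (fun g => by
        have := (abs_le.mp (key g)).1
        linarith)
      rw [hΛadd _ _ (hFb Es) (hcb _), hΛconst, hshift] at h5
      exact h5
    show |Λ (F Es) - Λ (F E)| ≤ 1 / 20
    rw [abs_le]
    constructor <;> linarith

end Pool.Agent.Y286.CG
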